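import Mathlib

/-!
Densities of flats.
-/

set_option linter.unusedSectionVars false

namespace Pool.Agent.HC

open scoped BigOperators
open Module

section dens

variable {V : Type*} [AddCommGroup V] [Module ℝ V] [FiniteDimensional ℝ V]

open Classical in
/-- the number of points of `X` in `T` -/
noncomputable def ct (X : Finset V) (T : Submodule ℝ V) : ℕ := (X.filter (fun x => x ∈ T)).card

/-- the density function -/
noncomputable def Ph (X : Finset V) (k : ℕ) (T : Submodule ℝ V) : ℤ :=
  (ct X T : ℤ) - k * finrank ℝ T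

lemma ct_le (X : Finset V) (T : Submodule ℝ V) : ct X T ≤ X.card := by
  classical
  exact Finset.card_filter_le _ _

lemma exists_max (X : Finset V) (k : ℕ) :
    ∃ G : Submodule ℝ V, ∀ T : Submodule ℝ V, Ph X k T ≤ Ph X k G := by
  obtain ⟨ub, ⟨G, hG⟩, hub⟩ := Int.exists_greatest_of_bdd (P := fun z => ∃ G, Ph X k G = z)
    ⟨(X.card : ℤ), by
      rintro z ⟨G, rfl⟩
      unfold Ph
      have h1 := ct_le X G
      have h2 : (0 : ℤ) ≤ k * finrank ℝ G := by positivity
      have h3 : (ct X G : ℤ) ≤ X.card := by exact_mod_cast h1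
      linarith⟩ ⟨_, ⊤, rfl⟩
  exact ⟨G, fun T => by rw [hG]; exact hub _ ⟨T, rfl⟩⟩

/-- densities -/
theorem dens (X : Finset V) (h0 : (0 : V) ∉ X) :
    ∃ a : ℕ → ℕ, X.card ≤ 2 * ∑ r ∈ Finset.Icc 1 X.card, a r ∧
      ∀ r, 1 ≤ r → ∃ G : Submodule ℝ V, ∀ T : Submodule ℝ V,
        2 * (r - 1) * finrank ℝ G + ct X T ≤ ct X G + 2 * (r - 1) * finrank ℝ T ∧
        2 * (r - 1) * finrank ℝ G + a r + ct X T ≤ ct X G + (2 * (r - 1) + 1) * finrank ℝ T := by
  classical
  choose G hG using exists_max X
  set f : ℕ → ℤ := fun k => Ph X k (G k) with hf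
  have hstep : ∀ k T, Ph X (k + 1) T = Ph X k T - finrank ℝ T := by
    intro k T
    unfold Ph
    push_cast
    ring
  have hanti : ∀ k, f (k + 1) ≤ f k := by
    intro k
    have h1 := hG k (G (k + 1))
    have h2 := hstep k (G (k + 1))
    have h3 : (0 : ℤ) ≤ finrank ℝ (G (k + 1)) := by positivity
    simp only [hf]
    linarith
  have hconv : ∀ k, f (k + 1) - f (k + 2) ≤ f k - f (k + 1) := by
    intro k
    have h1 := hG k (G (k + 1))
    have h2 := hG (k + 2) (G (k + 1))
    have h3 := hstep k (G (k + 1))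
    have h4 := hstep (k + 1) (G (k + 1))
    simp only [hf]
    linarith
  have hzero : f 0 = X.card := by
    have h1 := hG 0 ⊤
    have h2 : Ph X 0 (⊤ : Submodule ℝ V) = X.card := by
      unfold Ph ct
      simp
    have h3 : Ph X 0 (G 0) ≤ X.card := by
      unfold Ph
      have := ct_le X (G 0)
      push_cast
      have h3 : (ct X (G 0) : ℤ) ≤ X.card := by exact_mod_cast this
      linarith
    simp only [hf]
    linarith
  have hlast : ∀ k, X.card ≤ k → f k ≤ 0 := by
    intro k hk
    simp only [hf]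
    unfold Ph
    by_cases hb : finrank ℝ (G k) = 0
    · have h1 : G k = ⊥ := Submodule.finrank_eq_zero.mp hb
      have h2 : ct X (G k) = 0 := by
        unfold ct
        rw [Finset.card_eq_zero, Finset.filter_eq_empty_iff]
        intro x hx h3
        rw [h1, Submodule.mem_bot] at h3
        exact h0 (h3 ▸ hx)
      rw [h2, hb]
      simp
    · have h1 := ct_le X (G k)
      have h2 : 1 ≤ finrank ℝ (G k) := Nat.one_le_iff_ne_zero.mpr hb
      have h3 : k * 1 ≤ k * finrank ℝ (G k) := Nat.mul_le_mul_left _ h2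
      have h4 : ct X (G k) ≤ k * finrank ℝ (G k) := by omega
      have h5 : (ct X (G k) : ℤ) ≤ k * finrank ℝ (G k) := by exact_mod_cast h4
      linarith
  refine ⟨fun r => (f (2 * (r - 1)) - f (2 * (r - 1) + 1)).toNat, ?_, ?_⟩
  · have h1 : ∀ n : ℕ, f 0 - f (2 * n) ≤
        2 * ∑ r ∈ Finset.Icc 1 n, ((f (2 * (r - 1)) - f (2 * (r - 1) + 1)).toNat : ℤ) := by
      intro n
      induction n with
      | zero => simp
      | succ n ih =>
        rw [Finset.sum_Icc_succ_top (by omega)]
        have h2 := hconv (2 * n)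
        have h3 := hanti (2 * n)
        rw [Nat.add_sub_cancel, Int.toNat_of_nonneg (by linarith)]
        have h4 : 2 * (n + 1) = 2 * n + 2 := by ring
        rw [h4]
        linarith
    have h2 := h1 X.card
    have h3 := hlast (2 * X.card) (by omega)
    have h4 : (X.card : ℤ) ≤ 2 * ∑ r ∈ Finset.Icc 1 X.card,
        ((f (2 * (r - 1)) - f (2 * (r - 1) + 1)).toNat : ℤ) := by linarith
    exact_mod_cast h4
  · intro r hr
    refine ⟨G (2 * (r - 1)), fun T => ?_⟩
    set k := 2 * (r - 1) with hk
    have h1 := hG k T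
    have h2 := hG (k + 1) T
    have h3 : ((f k - f (k + 1)).toNat : ℤ) = f k - f (k + 1) :=
      Int.toNat_of_nonneg (by linarith [hanti k])
    simp only [hf] at h3
    unfold Ph at h1 h2 h3
    push_cast at h2 h3
    constructor
    · have : (k * finrank ℝ (G k) + ct X T : ℤ) ≤ ct X (G k) + k * finrank ℝ T := by linarith
      exact_mod_cast this
    · have : (k * finrank ℝ (G k) + ((f k - f (k + 1)).toNat : ℤ) + ct X T : ℤ)
          ≤ ct X (G k) + (k + 1) * finrank ℝ T := by
        simp only [hf]
        unfold Ph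
        push_cast
        linarith
      exact_mod_cast this

end dens

end Pool.Agent.HC
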