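import Pool.Agent.Lib_helper10.RY.Rado
import Pool.Agent.Lib_helper10.HC.Dens

/-!
Packing bases and one more independent set.
-/

set_option linter.unusedSectionVars false

namespace Pool.Agent.HC

open scoped BigOperators
open Module

section pack

variable {V : Type*} [AddCommGroup V] [Module ℝ V] [FiniteDimensional ℝ V]

/-- a generic subspace of given dimension -/
lemma generic (S : Finset (Submodule ℝ V)) (j : ℕ) (hj : j ≤ finrank ℝ V) :
    ∃ N : Submodule ℝ V, finrank ℝ N = j ∧ ∀ T ∈ S, N ⊓ T = ⊥ ∨ N ⊔ T = ⊤ := by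
  classical
  induction j with
  | zero => exact ⟨⊥, finrank_bot ℝ V, fun T _ => Or.inl (bot_inf_eq T)⟩
  | succ j ih =>
    obtain ⟨N, hN, hT⟩ := ih (by omega)
    have hne : N ≠ ⊤ := by
      intro h
      rw [h, finrank_top] at hN
      omega
    let K := {T : Submodule ℝ V // T ∈ insert ⊥ S ∧ N ⊔ T ≠ ⊤}
    have hK : Finite K := by
      apply Set.Finite.to_subtype
      exact (insert ⊥ S).finite_toSet.subset (fun T hT => hT.1)
    have hf : ∀ T : K, ∃ f : Dual ℝ V, f ≠ 0 ∧ N ⊔ T.1 ≤ LinearMap.ker f := by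
      intro T
      obtain ⟨f, h1, h2⟩ := Submodule.exists_le_ker_of_lt_top (N ⊔ T.1) (lt_top_iff_ne_top.mpr T.2.2)
      exact ⟨f, h1, h2⟩
    choose f hf0 hfk using hf
    obtain ⟨v, hv⟩ := Dual.exists_forall_ne_zero_of_forall_exists f (fun T => by
      by_contra hcon
      push Not at hcon
      exact hf0 T (LinearMap.ext hcon))
    have hvn : ∀ T ∈ insert ⊥ S, N ⊔ T ≠ ⊤ → v ∉ N ⊔ T := by
      intro T hT1 hT2 h
      exact hv ⟨T, hT1, hT2⟩ (hfk ⟨T, hT1, hT2⟩ h)
    have hvN : v ∉ N := by
      have := hvn ⊥ (Finset.mem_insert_self _ _) (by rwa [sup_bot_eq])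
      rwa [sup_bot_eq] at this
    refine ⟨N ⊔ Submodule.span ℝ {v}, ?_, ?_⟩
    · have h1 := Submodule.finrank_sup_add_finrank_inf_eq N (Submodule.span ℝ {v})
      have hv0 : v ≠ 0 := fun h => hvN (h ▸ N.zero_mem)
      have h2 : N ⊓ Submodule.span ℝ {v} = ⊥ := by
        rw [eq_bot_iff]
        rintro x ⟨hx, hx'⟩
        obtain ⟨c, rfl⟩ := Submodule.mem_span_singleton.mp hx'
        by_cases hc : c = 0
        · simp [hc]
        · exact absurd ((N.smul_mem_iff hc).mp hx) hvN
      rw [h2, finrank_bot, finrank_span_singleton hv0, hN] at h1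
      omega
    · intro T hTS
      by_cases h1 : N ⊔ T = ⊤
      · right
        rw [eq_top_iff, ← h1]
        exact sup_le_sup_right le_sup_left T
      · left
        have h2 := hvn T (Finset.mem_insert_of_mem hTS) h1
        have h3 : N ⊓ T = ⊥ := (hT T hTS).resolve_right h1
        rw [eq_bot_iff]
        rintro x ⟨hx, hxT⟩
        obtain ⟨n, hn, w, hw, rfl⟩ := Submodule.mem_sup.mp hx
        obtain ⟨c, rfl⟩ := Submodule.mem_span_singleton.mp hw
        have h4 : c • v ∈ N ⊔ T := by
          have h5 : c • v = (n + c • v) - n := by abel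
          rw [h5]
          exact Submodule.sub_mem _ (Submodule.mem_sup_right hxT) (Submodule.mem_sup_left hn)
        have hc : c = 0 := by
          by_contra hc
          exact h2 ((Submodule.smul_mem_iff _ hc).mp h4)
        rw [hc, zero_smul, add_zero] at hxT ⊢
        rw [← h3]
        exact ⟨hn, hxT⟩

/-- colours -/
abbrev Co (k f : ℕ) := Fin k ⊕ (Unit ⊕ Fin f)

/-- the coloured vectors -/
noncomputable def uu (k f : ℕ) (N : Submodule ℝ V) (x : V) :
    Co k f → (Fin k → V) × ((V ⧸ N) × (Fin f → ℝ))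
  | Sum.inl i => (Pi.single i x, 0, 0)
  | Sum.inr (Sum.inl _) => (0, N.mkQ x, 0)
  | Sum.inr (Sum.inr l) => (0, 0, Pi.single l 1)

lemma span_uu (k f : ℕ) (N : Submodule ℝ V) (T : Finset V) (hT : T.Nonempty)
    (A : Set ((Fin k → V) × ((V ⧸ N) × (Fin f → ℝ)))) (hA : ∀ x ∈ T, ∀ c, uu k f N x c ∈ A) :
    k * finrank ℝ (Submodule.span ℝ (T : Set V))
      + finrank ℝ ((Submodule.span ℝ (T : Set V)).map N.mkQ) + f ≤ finrank ℝ (Submodule.span ℝ A) := by
  classical
  set S := Submodule.span ℝ (T : Set V) with hS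
  let φ : ((Fin k → S) × ((S.map N.mkQ) × (Fin f → ℝ))) →ₗ[ℝ]
      ((Fin k → V) × ((V ⧸ N) × (Fin f → ℝ))) :=
    LinearMap.prodMap (LinearMap.pi (fun i => S.subtype ∘ₗ LinearMap.proj i))
      (LinearMap.prodMap (S.map N.mkQ).subtype LinearMap.id)
  have hφ : Function.Injective φ := by
    rintro ⟨w, q, t⟩ ⟨w', q', t'⟩ h
    have h1 := congrArg Prod.fst h
    have h2 := congrArg (fun z => z.2.1) h
    have h3 := congrArg (fun z => z.2.2) h
    refine Prod.ext ?_ (Prod.ext ?_ h3)
    · funext i
      apply Subtype.ext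
      exact congrFun h1 i
    · exact Subtype.ext h2
  have h1 : ∀ (i : Fin k), ∀ w ∈ S, ((Pi.single i w, 0, 0) :
      (Fin k → V) × ((V ⧸ N) × (Fin f → ℝ))) ∈ Submodule.span ℝ A := by
    intro i w hw
    let L : V →ₗ[ℝ] ((Fin k → V) × ((V ⧸ N) × (Fin f → ℝ))) :=
      LinearMap.inl ℝ _ _ ∘ₗ LinearMap.single ℝ (fun _ => V) i
    have h2 : S ≤ (Submodule.span ℝ A).comap L := by
      rw [hS]
      apply Submodule.span_le.mpr
      intro x hx
      exact Submodule.subset_span (hA x hx (Sum.inl i))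
    exact h2 hw
  have h2 : ∀ q ∈ S.map N.mkQ, ((0, q, 0) :
      (Fin k → V) × ((V ⧸ N) × (Fin f → ℝ))) ∈ Submodule.span ℝ A := by
    rintro q ⟨w, hw, rfl⟩
    let L : V →ₗ[ℝ] ((Fin k → V) × ((V ⧸ N) × (Fin f → ℝ))) :=
      LinearMap.inr ℝ _ _ ∘ₗ LinearMap.inl ℝ _ _ ∘ₗ N.mkQ
    have h2 : S ≤ (Submodule.span ℝ A).comap L := by
      rw [hS]
      apply Submodule.span_le.mpr
      intro x hx
      exact Submodule.subset_span (hA x hx (Sum.inr (Sum.inl ())))
    exact h2 hw
  have h3 : ∀ l : Fin f, ((0, 0, Pi.single l 1) :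
      (Fin k → V) × ((V ⧸ N) × (Fin f → ℝ))) ∈ Submodule.span ℝ A := by
    intro l
    obtain ⟨x, hx⟩ := hT
    exact Submodule.subset_span (hA x hx (Sum.inr (Sum.inr l)))
  have hr : LinearMap.range φ ≤ Submodule.span ℝ A := by
    rintro _ ⟨⟨w, q, t⟩, rfl⟩
    have h4 : φ (w, q, t) = ∑ i, ((Pi.single i (w i : V), 0, 0) :
        (Fin k → V) × ((V ⧸ N) × (Fin f → ℝ)))
        + ((0, (q : V ⧸ N), 0) : (Fin k → V) × ((V ⧸ N) × (Fin f → ℝ)))
        + ∑ l, t l • ((0, 0, Pi.single l 1) : (Fin k → V) × ((V ⧸ N) × (Fin f → ℝ))) := by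
      refine Prod.ext ?_ (Prod.ext ?_ ?_)
      · simp only [Prod.fst_add, Prod.fst_sum, Prod.smul_fst, smul_zero, Finset.sum_const_zero,
          add_zero]
        funext i
        simp [φ, Finset.sum_apply, Pi.single_apply]
      · simp only [Prod.snd_add, Prod.fst_add, Prod.snd_sum, Prod.fst_sum, Prod.smul_snd,
          Prod.smul_fst, smul_zero, Finset.sum_const_zero, add_zero, zero_add]
        rfl
      · simp only [Prod.snd_add, Prod.snd_sum, Prod.smul_snd, Finset.sum_const_zero,
          add_zero, zero_add]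
        funext l
        simp [φ, Finset.sum_apply, Pi.single_apply]
    rw [h4]
    refine Submodule.add_mem _ (Submodule.add_mem _ ?_ ?_) ?_
    · exact Submodule.sum_mem _ fun i _ => h1 i _ (w i).2
    · exact h2 _ q.2
    · exact Submodule.sum_mem _ fun l _ => Submodule.smul_mem _ _ (h3 l)
  have h5 := Submodule.finrank_mono hr
  rw [LinearMap.finrank_range_of_inj hφ] at h5
  rw [Module.finrank_prod, Module.finrank_prod, Module.finrank_pi_fintype,
    Module.finrank_fin_fun] at h5
  simp only [Finset.sum_const, Finset.card_univ, Fintype.card_fin, smul_eq_mul] at h5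
  omega

/-- packing -/
theorem pack (X : Finset V) (k a : ℕ)
    (h1 : ∀ T : Submodule ℝ V, k * finrank ℝ V + ct X T ≤ X.card + k * finrank ℝ T)
    (h2 : ∀ T : Submodule ℝ V, k * finrank ℝ V + a + ct X T ≤ X.card + (k + 1) * finrank ℝ T) :
    ∃ (J : Finset V) (B : Fin k → Finset V), J ⊆ X ∧ (∀ i, B i ⊆ X) ∧ (∀ i, Disjoint J (B i)) ∧
      (∀ i j, i ≠ j → Disjoint (B i) (B j)) ∧ J.card = a ∧
      LinearIndependent ℝ (fun x : {x // x ∈ J} => (x : V)) ∧
      (∀ i, (B i).card = finrank ℝ V) ∧
      ∀ i, LinearIndependent ℝ (fun x : {x // x ∈ B i} => (x : V)) := by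
  classical
  have ha : a ≤ finrank ℝ V := by
    have h3 := h2 ⊤
    have h4 : ct X (⊤ : Submodule ℝ V) = X.card := by simp [ct]
    rw [h4, finrank_top, add_mul, one_mul] at h3
    omega
  have hX : k * finrank ℝ V + a ≤ X.card := by
    have h3 := h2 ⊥
    rw [finrank_bot] at h3
    omega
  obtain ⟨f, hf⟩ : ∃ f, X.card = k * finrank ℝ V + a + f := ⟨_, (Nat.add_sub_of_le hX).symm⟩
  obtain ⟨N, hN, hgen⟩ := generic (X.powerset.image (fun T : Finset V => Submodule.span ℝ (T : Set V)))
    (finrank ℝ V - a) (by omega)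
  have hQ : finrank ℝ (V ⧸ N) = a := by
    have := Submodule.finrank_quotient_add_finrank N
    omega
  obtain ⟨s, hs⟩ := RY.rado (ι := {x // x ∈ X}) (C := Co k f)
    (M := (Fin k → V) × ((V ⧸ N) × (Fin f → ℝ))) (fun x c => uu k f N (x : V) c) (by
      intro T
      rcases T.eq_empty_or_nonempty with rfl | hT
      · simp
      · set T' : Finset V := T.map (Function.Embedding.subtype _) with hT'
        have hT'X : T' ⊆ X := by
          intro x hx
          obtain ⟨y, _, rfl⟩ := Finset.mem_map.mp hx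
          exact y.2
        have h3 := span_uu k f N T' (by simpa [hT'] using hT)
          {v | ∃ i ∈ T, ∃ c, uu k f N (i : V) c = v} (by
            intro x hx c
            obtain ⟨y, hy, rfl⟩ := Finset.mem_map.mp hx
            exact ⟨y, hy, c, rfl⟩)
        set S := Submodule.span ℝ (T' : Set V) with hS
        have h4 : T.card ≤ ct X S := by
          rw [← Finset.card_map (Function.Embedding.subtype _), ← hT']
          unfold ct
          apply Finset.card_le_card
          intro x hx
          exact Finset.mem_filter.mpr ⟨hT'X hx, Submodule.subset_span hx⟩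
        have h5 := h1 S
        have h6 := h2 S
        rw [add_mul, one_mul] at h6
        have hrn : finrank ℝ (S.map N.mkQ) + finrank ℝ (N ⊓ S : Submodule ℝ V) = finrank ℝ S := by
          have h7 := LinearMap.finrank_range_add_finrank_ker (N.mkQ.domRestrict S)
          have h8 : LinearMap.range (N.mkQ.domRestrict S) = S.map N.mkQ := by
            rw [LinearMap.domRestrict, LinearMap.range_comp, Submodule.range_subtype]
          have h9 : (LinearMap.ker (N.mkQ.domRestrict S)).map S.subtype = N ⊓ S := by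
            ext x
            simp only [Submodule.mem_map, LinearMap.mem_ker, LinearMap.domRestrict_apply,
              Submodule.subtype_apply, Submodule.mem_inf, Submodule.mkQ_apply,
              Submodule.Quotient.mk_eq_zero]
            constructor
            · rintro ⟨y, hy, rfl⟩; exact ⟨hy, y.2⟩
            · rintro ⟨hx, hx'⟩; exact ⟨⟨x, hx'⟩, hx, rfl⟩
          rw [h8, ← Submodule.finrank_map_subtype_eq, h9] at h7
          exact h7
        rcases hgen S (Finset.mem_image.mpr ⟨T', Finset.mem_powerset.mpr hT'X, rfl⟩) with h7 | h7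
        · rw [h7, finrank_bot] at hrn
          omega
        · have h8 := Submodule.finrank_sup_add_finrank_inf_eq N S
          rw [h7, finrank_top] at h8
          omega)
  let col : V → Co k f := fun x => if h : x ∈ X then s ⟨x, h⟩ else Sum.inr (Sum.inl ())
  have hcol : ∀ x : {x // x ∈ X}, col x = s x := by
    intro x
    simp [col]
  let Cl : Co k f → Finset V := fun c => X.filter (fun x => col x = c)
  have hli : ∀ c, LinearIndependent ℝ (fun x : {x // x ∈ Cl c} => uu k f N (x : V) c) := by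
    intro c
    have h3 := hs.comp (fun x : {x // x ∈ Cl c} =>
      (⟨x.1, (Finset.mem_filter.mp x.2).1⟩ : {x // x ∈ X})) (by
        intro x y h
        exact Subtype.ext (congrArg (fun z : {x // x ∈ X} => (z : V)) h))
    have h4 : ((fun i : {x // x ∈ X} => uu k f N (i : V) (s i)) ∘ (fun x : {x // x ∈ Cl c} =>
        (⟨x.1, (Finset.mem_filter.mp x.2).1⟩ : {x // x ∈ X})))
        = fun x : {x // x ∈ Cl c} => uu k f N (x : V) c := by
      funext x
      have h5 := (Finset.mem_filter.mp x.2).2
      have h6 := hcol ⟨x.1, (Finset.mem_filter.mp x.2).1⟩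
      simp only [Function.comp_apply]
      rw [← h6]
      change uu k f N (x : V) (col x) = _
      rw [h5]
    rwa [h4] at h3
  have hB : ∀ i, LinearIndependent ℝ (fun x : {x // x ∈ Cl (Sum.inl i)} => (x : V)) := by
    intro i
    let L : V →ₗ[ℝ] ((Fin k → V) × ((V ⧸ N) × (Fin f → ℝ))) :=
      LinearMap.inl ℝ _ _ ∘ₗ LinearMap.single ℝ (fun _ => V) i
    exact LinearIndependent.of_comp L (hli (Sum.inl i))
  have hJ' : LinearIndependent ℝ
      (fun x : {x // x ∈ Cl (Sum.inr (Sum.inl ()))} => N.mkQ (x : V)) := by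
    let L : (V ⧸ N) →ₗ[ℝ] ((Fin k → V) × ((V ⧸ N) × (Fin f → ℝ))) :=
      LinearMap.inr ℝ _ _ ∘ₗ LinearMap.inl ℝ _ _
    exact LinearIndependent.of_comp L (hli (Sum.inr (Sum.inl ())))
  have hJ : LinearIndependent ℝ (fun x : {x // x ∈ Cl (Sum.inr (Sum.inl ()))} => (x : V)) :=
    LinearIndependent.of_comp N.mkQ hJ'
  let b : Co k f → ℕ := Sum.elim (fun _ => finrank ℝ V) (Sum.elim (fun _ => a) (fun _ => 1))
  have hb : ∀ c, (Cl c).card ≤ b c := by
    intro c
    rcases c with i | u | l
    · have := (hB i).fintype_card_le_finrank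
      rwa [Fintype.card_coe] at this
    · have := hJ'.fintype_card_le_finrank
      rw [Fintype.card_coe, hQ] at this
      exact this
    · have h3 := (hli (Sum.inr (Sum.inr l))).injective
      change (Cl (Sum.inr (Sum.inr l))).card ≤ 1
      rw [Finset.card_le_one]
      intro x hx y hy
      have h4 : (⟨x, hx⟩ : {x // x ∈ Cl (Sum.inr (Sum.inr l))}) = ⟨y, hy⟩ := h3 rfl
      exact congrArg Subtype.val h4
  have hsum : ∑ c, (Cl c).card = ∑ c, b c := by
    have h3 : X.card = ∑ c, (Cl c).card :=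
      Finset.card_eq_sum_card_fiberwise (fun x _ => Finset.mem_coe.mpr (Finset.mem_univ (col x)))
    rw [← h3, hf, Fintype.sum_sum_type, Fintype.sum_sum_type]
    simp [b]
    omega
  have heq := (Finset.sum_eq_sum_iff_of_le (fun c _ => hb c)).mp hsum
  refine ⟨Cl (Sum.inr (Sum.inl ())), fun i => Cl (Sum.inl i), Finset.filter_subset _ _,
    fun i => Finset.filter_subset _ _, ?_, ?_, heq _ (Finset.mem_univ _), hJ,
    fun i => heq _ (Finset.mem_univ _), hB⟩
  · intro i
    rw [Finset.disjoint_left]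
    intro x hx hx'
    have h3 := (Finset.mem_filter.mp hx).2.symm.trans (Finset.mem_filter.mp hx').2
    exact absurd h3 (by simp)
  · intro i j hij
    rw [Finset.disjoint_left]
    intro x hx hx'
    have h3 := (Finset.mem_filter.mp hx).2.symm.trans (Finset.mem_filter.mp hx').2
    exact hij (Sum.inl_injective h3)

end pack

end Pool.Agent.HC
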