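import Pool.Agent.Lib_helper10.RY.State

/-!
Bases and one independent set: a common point with large spans.
-/

set_option linter.unusedSectionVars false

namespace Pool.Agent.HC

open scoped BigOperators
open Module Pool.Agent.RY

section thmA

variable {V : Type*} [AddCommGroup V] [Module ℝ V] [FiniteDimensional ℝ V]

/-- Theorem A: `m` bases `E i`, `m` bases `Q i` and an independent set `J`, all disjoint -/
theorem thmA (m : ℕ) (J : Finset V) (E Q : Fin m → Finset V)
    (hJE : ∀ i, Disjoint J (E i)) (hJQ : ∀ i, Disjoint J (Q i))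
    (hEE : ∀ i j, i ≠ j → Disjoint (E i) (E j)) (hQQ : ∀ i j, i ≠ j → Disjoint (Q i) (Q j))
    (hEQ : ∀ i j, Disjoint (E i) (Q j))
    (hE : ∀ i, Submodule.span ℝ (E i : Set V) = ⊤)
    (hQc : ∀ i, (Q i).card = finrank ℝ V)
    (hQ : ∀ i, LinearIndependent ℝ (fun x : {x // x ∈ Q i} => (x : V))) :
    ∃ F : Fin (m + 1) → Finset V, (∀ j, ∀ x ∈ F j, x ∈ J ∨ (∃ i, x ∈ E i) ∨ ∃ i, x ∈ Q i) ∧
      (∀ i j, i ≠ j → Disjoint (F i) (F j)) ∧ (∃ z, ∀ j, RY.Rel (F j) z) ∧
      ∀ j, Submodule.span ℝ (J : Set V) ≤ Submodule.span ℝ (F j : Set V) := by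
  classical
  -- the pool
  set P : Finset V := Finset.univ.biUnion Q with hP
  have hmemP : ∀ x, x ∈ P ↔ ∃ i, x ∈ Q i := by intro x; simp [hP]
  have hPcard : P.card = m * finrank ℝ V := by
    rw [hP, Finset.card_biUnion (fun i _ j _ h => hQQ i j h)]
    simp [hQc]
  -- the start colouring
  let s0 : V → Fin (m + 1) := fun x => if h : ∃ i, x ∈ Q i then (h.choose).succ else 0
  have hs0 : ∀ i, ∀ x ∈ Q i, s0 x = i.succ := by
    intro i x hx
    have h : ∃ i, x ∈ Q i := ⟨i, hx⟩
    simp only [s0, dif_pos h]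
    congr 1
    by_contra hne
    exact (Finset.disjoint_left.mp (hQQ _ _ hne)) h.choose_spec hx
  let U : Fin (m + 1) → Submodule ℝ V := fun _ => ⊥
  have hfr : finrank ℝ (MM U ⊤) = m * finrank ℝ V := by
    have h1 := finrank_MM (Nat.succ_pos m) U ⊤
    have h2 : (⊤ ⊓ ⨅ j, U j : Submodule ℝ V) = ⊥ := by
      rw [top_inf_eq, eq_bot_iff]
      exact iInf_le U 0
    rw [h2] at h1
    have h3 : ∑ j, finrank ℝ (U j) = 0 := by simp [U]
    rw [h3, finrank_bot, finrank_top, add_zero, add_zero, Nat.succ_mul] at h1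
    omega
  have hli : LinearIndependent ℝ (fun x : {x // x ∈ P} => io U ⊤ (s0 x) (x : V)) := by
    rw [Fintype.linearIndependent_iff]
    intro g hg
    let a : V → ℝ := fun x => if h : x ∈ P then g ⟨x, h⟩ else 0
    have h1 : ∑ x ∈ P, a x • io U ⊤ (s0 x) x = 0 := by
      rw [← hg, ← Finset.sum_coe_sort P]
      exact Finset.sum_congr rfl fun x _ => by
        simp only [a, Finset.coe_mem, dif_pos, Subtype.coe_eta]
    rw [sum_col, mk_eq_zero] at h1
    obtain ⟨h, _, hj⟩ := h1
    have h0 : h = 0 := by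
      have h2 := hj 0
      have h3 : P.filter (fun x => s0 x = 0) = ∅ := by
        apply Finset.filter_eq_empty_iff.mpr
        intro x hx h4
        obtain ⟨i, hi⟩ := (hmemP x).mp hx
        rw [hs0 i x hi] at h4
        exact Fin.succ_ne_zero i h4
      rw [h3] at h2
      have h4 : (0 : V) - h = 0 := by simpa [U] using h2
      simpa using h4
    rintro ⟨x, hx⟩
    obtain ⟨i, hi⟩ := (hmemP x).mp hx
    have h2 := hj i.succ
    have h3 : P.filter (fun x => s0 x = i.succ) = Q i := by
      ext y
      rw [Finset.mem_filter]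
      constructor
      · rintro ⟨hy, h4⟩
        obtain ⟨k, hk⟩ := (hmemP y).mp hy
        rw [hs0 k y hk] at h4
        rw [← Fin.succ_injective _ h4]
        exact hk
      · intro hy
        exact ⟨(hmemP y).mpr ⟨i, hy⟩, hs0 i y hy⟩
    rw [h3, h0] at h2
    have h4 : ∑ x ∈ Q i, a x • x = 0 := by simpa [U] using h2
    have h5 := (Fintype.linearIndependent_iff.mp (hQ i)) (fun y => a y) (by
      rw [← h4, ← Finset.sum_coe_sort (Q i)]) ⟨x, hi⟩
    simpa only [a, hx, dif_pos] using h5
  -- the target
  let E' : Fin (m + 1) → Finset V := Fin.cons J E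
  let e : Fin (m + 1) → V := fun j => ∑ x ∈ E' j, x
  obtain ⟨s, a, _, ha, hsum⟩ := cov_MM U ⊤ P (by rw [hPcard, hfr]) (- (NN U ⊤).mkQ e) (by
    intro x _
    refine ⟨0, le_refl _, ?_⟩
    rw [zero_smul, mk_eq_zero]
    exact ⟨x, Submodule.mem_top, fun j => by simp⟩) s0 hli
  have h1 : ∑ x ∈ P, a x • io U ⊤ (s x) x + (NN U ⊤).mkQ e = 0 := by rw [hsum]; simp
  rw [sum_col, ← map_add, mk_eq_zero] at h1
  obtain ⟨z, _, hz⟩ := h1
  have hz' : ∀ j, ∑ x ∈ P.filter (fun x => s x = j), a x • x + e j = z := by
    intro j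
    have := hz j
    simp only [U, Submodule.mem_bot, Pi.add_apply] at this
    exact sub_eq_zero.mp this
  have hE'P : ∀ j, Disjoint (E' j) P := by
    intro j
    rw [Finset.disjoint_left]
    intro x hx hxP
    obtain ⟨i, hi⟩ := (hmemP x).mp hxP
    refine Fin.cases ?_ (fun k => ?_) j hx
    · intro hx0
      exact (Finset.disjoint_left.mp (hJQ i)) hx0 hi
    · intro hx0
      exact (Finset.disjoint_left.mp (hEQ k i)) hx0 hi
  have hE'E' : ∀ i j, i ≠ j → Disjoint (E' i) (E' j) := by
    intro i j
    refine Fin.cases ?_ (fun k => ?_) i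
    · refine Fin.cases ?_ (fun l => ?_) j
      · intro h; exact absurd rfl h
      · intro _; exact hJE l
    · refine Fin.cases ?_ (fun l => ?_) j
      · intro _; exact (hJE k).symm
      · intro h
        exact hEE k l (fun h1 => h (by rw [h1]))
  let T : Fin (m + 1) → Finset V := fun j => P.filter (fun x => s x = j ∧ 0 < a x)
  refine ⟨fun j => E' j ∪ T j, ?_, ?_, ⟨z, ?_⟩, ?_⟩
  · intro j x hx
    rcases Finset.mem_union.mp hx with hx | hx
    · revert hx
      refine Fin.cases ?_ (fun k => ?_) j
      · intro hx; exact Or.inl hx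
      · intro hx; exact Or.inr (Or.inl ⟨k, hx⟩)
    · exact Or.inr (Or.inr ((hmemP x).mp (Finset.mem_filter.mp hx).1))
  · intro i j hij
    rw [Finset.disjoint_union_left, Finset.disjoint_union_right, Finset.disjoint_union_right]
    refine ⟨⟨hE'E' i j hij, ?_⟩, ?_, ?_⟩
    · exact Finset.disjoint_of_subset_right (Finset.filter_subset _ _) (hE'P i)
    · exact (Finset.disjoint_of_subset_right (Finset.filter_subset _ _) (hE'P j)).symm
    · rw [Finset.disjoint_left]
      intro x hx hx'
      exact hij ((Finset.mem_filter.mp hx).2.1.symm.trans (Finset.mem_filter.mp hx').2.1)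
  · intro j
    refine ⟨fun x => if x ∈ P then a x else 1, ?_, ?_⟩
    · intro x hx
      rcases Finset.mem_union.mp hx with hx | hx
      · have : x ∉ P := fun h => (Finset.disjoint_left.mp (hE'P j)) hx h
        simp [this]
      · obtain ⟨h1, _, h2⟩ := Finset.mem_filter.mp hx
        simp only [h1, if_true]
        exact h2
    · rw [Finset.sum_union (Finset.disjoint_of_subset_right (Finset.filter_subset _ _) (hE'P j)),
        ← hz' j, add_comm]
      congr 1
      · have h2 : ∑ x ∈ P.filter (fun x => s x = j), a x • x = ∑ x ∈ T j, a x • x := by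
          symm
          apply Finset.sum_subset
          · intro x hx
            obtain ⟨h3, h4, _⟩ := Finset.mem_filter.mp hx
            exact Finset.mem_filter.mpr ⟨h3, h4⟩
          · intro x hx hx'
            obtain ⟨h3, h4⟩ := Finset.mem_filter.mp hx
            have h5 : ¬ 0 < a x := fun h => hx' (Finset.mem_filter.mpr ⟨h3, h4, h⟩)
            have h6 : a x = 0 := le_antisymm (not_lt.mp h5) (ha x h3)
            rw [h6, zero_smul]
        rw [h2]
        refine Finset.sum_congr rfl fun x hx => ?_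
        have h3 := (Finset.mem_filter.mp hx).1
        simp [h3]
      · refine Finset.sum_congr rfl fun x hx => ?_
        have h3 : x ∉ P := fun h => (Finset.disjoint_left.mp (hE'P j)) hx h
        simp [h3]
  · intro j
    refine Fin.cases ?_ (fun k => ?_) j
    · apply Submodule.span_mono
      intro x hx
      exact Finset.mem_union_left _ hx
    · have h1 : Submodule.span ℝ (E k : Set V)
          ≤ Submodule.span ℝ ((E' k.succ ∪ T k.succ : Finset V) : Set V) := by
        apply Submodule.span_mono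
        intro x hx
        exact Finset.mem_union_left _ hx
      rw [hE k] at h1
      exact le_top.trans h1

end thmA

end Pool.Agent.HC
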