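import Pool.Agent.Lib_helper10.RY.Geom
import Pool.Agent.Lib_helper10.RY.Reay
import Pool.Agent.Lib_helper10.HC.ThmA
import Pool.Agent.Lib_helper10.HC.Pack

/-!
Half of Kalai's inequality.
-/

set_option linter.unusedSectionVars false

namespace Pool.Agent.HC

open scoped BigOperators
open Module Pool.Agent

section main

variable {V : Type*} [AddCommGroup V] [Module ℝ V] [FiniteDimensional ℝ V]

open Classical in
/-- the points of `X` in `G`, as elements of `G` -/
noncomputable def rs (X : Finset V) (G : Submodule ℝ V) : Finset G :=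
  X.subtype (fun x => x ∈ G)

lemma mem_rs {X : Finset V} {G : Submodule ℝ V} {x : G} : x ∈ rs X G ↔ (x : V) ∈ X := by
  classical
  simp [rs]

lemma card_rs (X : Finset V) (G : Submodule ℝ V) : (rs X G).card = ct X G := by
  classical
  unfold rs ct
  rw [Finset.card_subtype]

lemma ct_rs (X : Finset V) (G : Submodule ℝ V) (T : Submodule ℝ G) :
    ct (rs X G) T = ct X (T.map G.subtype) := by
  classical
  unfold ct
  rw [← Finset.card_map (Function.Embedding.subtype (fun x => x ∈ G))]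
  congr 1
  ext x
  simp only [Finset.mem_map, Finset.mem_filter, mem_rs, Function.Embedding.subtype_apply,
    Submodule.mem_map, Submodule.subtype_apply]
  constructor
  · rintro ⟨y, ⟨h1, h2⟩, rfl⟩
    exact ⟨h1, y, h2, rfl⟩
  · rintro ⟨h1, y, h2, rfl⟩
    exact ⟨y, ⟨h1, h2⟩, rfl⟩

/-- a dense flat gives a common point -/
lemma exists_F (X : Finset V) (m a : ℕ) (G : Submodule ℝ V)
    (hG : ∀ T : Submodule ℝ V,
        2 * m * finrank ℝ G + ct X T ≤ ct X G + 2 * m * finrank ℝ T ∧
        2 * m * finrank ℝ G + a + ct X T ≤ ct X G + (2 * m + 1) * finrank ℝ T) :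
    ∃ F : Fin (m + 1) → Finset V, (∀ j, F j ⊆ X) ∧
      (∀ i j, i ≠ j → Disjoint (F i) (F j)) ∧ (∃ z, ∀ j, RY.Rel (F j) z) ∧
      ∃ W : Submodule ℝ V, finrank ℝ W = a ∧
      ∀ j, W ≤ Submodule.span ℝ (F j : Set V) := by
  classical
  obtain ⟨J, B, hJ, hB, hJB, hBB, hJa, hJi, hBc, hBi⟩ := pack (rs X G) (2 * m) a (by
    intro T
    have h1 := (hG (T.map G.subtype)).1
    rw [Submodule.finrank_map_subtype_eq] at h1
    rw [card_rs, ct_rs]
    exact h1) (by
    intro T
    have h1 := (hG (T.map G.subtype)).2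
    rw [Submodule.finrank_map_subtype_eq] at h1
    rw [card_rs, ct_rs]
    exact h1)
  -- split the bases
  let eE : Fin m → Fin (2 * m) := fun i => ⟨i, by omega⟩
  let eQ : Fin m → Fin (2 * m) := fun i => ⟨m + i, by omega⟩
  have heE : ∀ i j, i ≠ j → eE i ≠ eE j := by
    intro i j hij h
    apply hij
    have := congrArg Fin.val h
    exact Fin.ext this
  have heQ : ∀ i j, i ≠ j → eQ i ≠ eQ j := by
    intro i j hij h
    apply hij
    have : m + (i : ℕ) = m + (j : ℕ) := congrArg Fin.val h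
    exact Fin.ext (by omega)
  have heEQ : ∀ i j, eE i ≠ eQ j := by
    intro i j h
    have : (i : ℕ) = m + (j : ℕ) := congrArg Fin.val h
    omega
  obtain ⟨F, hF1, hF2, ⟨z, hz⟩, hF4⟩ := thmA m J (fun i => B (eE i)) (fun i => B (eQ i))
    (fun i => hJB _) (fun i => hJB _) (fun i j h => hBB _ _ (heE i j h))
    (fun i j h => hBB _ _ (heQ i j h)) (fun i j => hBB _ _ (heEQ i j))
    (fun i => by
      have h1 := (hBi (eE i)).span_eq_top_of_card_eq_finrank' (by
        rw [Fintype.card_coe]; exact hBc _)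
      rwa [Subtype.range_coe_subtype] at h1)
    (fun i => hBc _) (fun i => hBi _)
  have hFX : ∀ j, ∀ x ∈ F j, (x : V) ∈ X := by
    intro j x hx
    rcases hF1 j x hx with h | ⟨i, h⟩ | ⟨i, h⟩
    · exact mem_rs.mp (hJ h)
    · exact mem_rs.mp (hB _ h)
    · exact mem_rs.mp (hB _ h)
  have hmap : ∀ S : Finset G, ((S.map (Function.Embedding.subtype (fun x => x ∈ G)) : Finset V) :
      Set V) = G.subtype '' (S : Set G) := by
    intro S
    rw [Finset.coe_map]
    rfl
  refine ⟨fun j => (F j).map (Function.Embedding.subtype (fun x => x ∈ G)), ?_, ?_,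
    ⟨(z : V), ?_⟩, (Submodule.span ℝ (J : Set G)).map G.subtype, ?_, ?_⟩
  · intro j x hx
    obtain ⟨y, hy, rfl⟩ := Finset.mem_map.mp hx
    exact hFX j y hy
  · intro i j hij
    exact (Finset.disjoint_map _).mpr (hF2 i j hij)
  · intro j
    obtain ⟨α, hα, hs⟩ := hz j
    refine ⟨fun x => if h : x ∈ G then α ⟨x, h⟩ else 1, ?_, ?_⟩
    · intro x hx
      obtain ⟨y, hy, rfl⟩ := Finset.mem_map.mp hx
      have := hα y hy
      simpa using this
    · rw [Finset.sum_map, ← hs]
      push_cast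
      refine Finset.sum_congr rfl fun y _ => ?_
      simp
  · rw [Submodule.finrank_map_subtype_eq, finrank_span_finset_eq_card hJi, hJa]
  · intro j
    rw [hmap, ← Submodule.map_span]
    exact Submodule.map_mono (hF4 j)

variable {d : ℕ}

/-- half of Kalai's inequality -/
theorem half_cascade (X : Finset (Fin d → ℝ)) :
    (X.card : ℤ) ≤ 2 * ∑ r ∈ Finset.Icc 1 X.card, (1 + KL.dimT r X) := by
  classical
  obtain ⟨a, ha, hG⟩ := dens (X.map (RY.lf d)) (by
    intro h
    obtain ⟨x, _, hx⟩ := Finset.mem_map.mp h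
    have := congrArg Prod.snd hx
    simp at this)
  rw [Finset.card_map] at ha
  have h1 : ∑ r ∈ Finset.Icc 1 X.card, (a r : ℤ) ≤ ∑ r ∈ Finset.Icc 1 X.card, (1 + KL.dimT r X) := by
    apply Finset.sum_le_sum
    intro r hr
    obtain ⟨hr1, _⟩ := Finset.mem_Icc.mp hr
    by_cases ha0 : a r = 0
    · rw [ha0]
      have := RY.dimT_ge_neg_one hr1 X
      push_cast
      linarith
    · obtain ⟨G, hG'⟩ := hG r hr1
      obtain ⟨m, rfl⟩ : ∃ m, r = m + 1 := ⟨r - 1, by omega⟩
      simp only [Nat.add_sub_cancel] at hG'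
      obtain ⟨F, hF1, hF2, ⟨z, hz⟩, W, hW, hF4⟩ := exists_F _ m _ G hG'
      have h2 := RY.dimT_ge hr1 X F hF1 hF2 z hz W hF4 (by omega)
      rw [hW] at h2
      linarith
  have h2 : (X.card : ℤ) ≤ 2 * ∑ r ∈ Finset.Icc 1 X.card, (a r : ℤ) := by exact_mod_cast ha
  linarith

end main

end Pool.Agent.HC
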